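import Pool.Agent.Helper80_TF.Kit

/-! Squad TF (MP_589914_co), row MOV. -/

set_option autoImplicit false

namespace Pool.Agent.TF.H80

section
variable {Ω S U : Type} [Fintype Ω]

open Classical in
/-- subadditivity of the conditional entropy of a finite family, partial version -/
theorem csub_aux (L : Lib) (P : Law Ω) {R : ℕ} (c : Ω → Fin R → S) (Z : Ω → U)
    (s : Finset (Fin R)) :
    P.C (fun ω (t : Fin R) => if t ∈ s then some (c ω t) else none) Z ≤
      ∑ t ∈ s, P.C (fun ω => c ω t) Z := by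
  induction s using Finset.induction_on with
  | empty =>
    simp only [Finset.notMem_empty, if_false, Finset.sum_empty]
    unfold Law.C
    have h : P.H (fun ω => ((fun _ : Fin R => (none : Option S)), Z ω)) ≤ P.H Z := by
      apply hle L P
      intro ω ω' _ _ he
      simp only [Prod.mk.injEq, true_and]
      exact he
    linarith
  | insert a s ha ih =>
    rw [Finset.sum_insert ha]
    have h1 := cadd L P (fun ω => c ω a)
      (fun ω (t : Fin R) => if t ∈ s then some (c ω t) else none) Z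
    have h2 : P.C (fun ω (t : Fin R) => if t ∈ insert a s then some (c ω t) else none) Z ≤
        P.C (fun ω => (c ω a, (fun (t : Fin R) => if t ∈ s then some (c ω t) else none))) Z := by
      apply cle L P
      intro ω ω' _ _ he
      simp only [Prod.mk.injEq] at he
      obtain ⟨⟨h3, h4⟩, _⟩ := he
      funext t
      have h5 := congrFun h4 t
      by_cases ht : t = a
      · subst ht
        simp [h3]
      · simp only [Finset.mem_insert, ht, false_or]
        exact h5
    have h3 : P.C (fun ω => c ω a)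
        (fun ω => ((fun (t : Fin R) => if t ∈ s then some (c ω t) else none), Z ω)) ≤
        P.C (fun ω => c ω a) Z := by
      apply cmono L P
      intro ω ω' _ _ he
      simp only [Prod.mk.injEq] at he
      exact he.2
    linarith

/-- subadditivity of the conditional entropy of a finite family -/
theorem csub (L : Lib) (P : Law Ω) {R : ℕ} (c : Ω → Fin R → S) (Z : Ω → U) :
    P.C c Z ≤ ∑ t, P.C (fun ω => c ω t) Z := by
  classical
  refine le_trans (cle L P ?_) (csub_aux L P c Z Finset.univ)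
  intro ω ω' _ _ he
  simp only [Finset.mem_univ, if_true, Prod.mk.injEq] at he
  funext t
  have := congrFun he.1 t
  simpa using this

end

/-- the label of a class is at most `l/2 + e` -/
theorem clab (L : Lib) {G : Type} [AddCommGroup G] [Fintype G] [DecidableEq G] {n : ℕ}
    {F : Fam G n} {l e : ℝ} (hb : Base F l e) {Ω U : Type} [Fintype Ω] (P : Law Ω)
    (σ : Bool) (x : Ω → G) (k : Ω → Fin n) (Z : Ω → U) (κ : U → Fin n)
    (hκ : ∀ ω, κ (Z ω) = k ω) (hx : ∀ ω, P.p ω ≠ 0 → x ω ∈ F.D (k ω)) :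
    P.C (fun ω => F.lab σ (k ω) (x ω)) Z ≤ l / 2 + e := by
  apply clog L P _ _ (fun z => (F.D (κ z)).image (F.lab σ (κ z)))
  · intro ω h0
    rw [hκ]
    exact Finset.mem_image_of_mem _ (hx ω h0)
  · intro ω _
    exact hb.hlab σ _

/-- MOV -/
theorem mov (L : Lib) (hM : Mo1Stmt) : MovStmt := by
  intro G _ _ _ n F l e V κ R Ω _ P x y h c hR hm i
  have he0 := hm.base.e0
  set Z : Ω → Fin n × Fin n × G × G :=
    fun ω => (c ω i, h ω, F.a (c ω i) (x ω), F.a (c ω i) (y ω)) with hZ
  set u : ℝ := P.H Z with hu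
  have hrel := hm.rel
  -- the other classes
  have h2 : ∀ j, j ≠ i → P.C (fun ω => c ω j) Z ≤ 9 * l / 4 + 1279 * e - u := by
    intro j hj
    have h3 := hM G n F l e Ω P x y h (fun ω => c ω i) (fun ω => c ω j) hm.base
      (fun ω h0 => ⟨hrel ω h0 i, hrel ω h0 j⟩)
      (by rw [hm.h2 i j hj.symm]; exact hm.big)
    have h4 : P.H (fun ω => (c ω j, Z ω)) ≤
        P.H (fun ω => ((c ω i, c ω j, h ω), (F.a (c ω i) (x ω), F.a (c ω i) (y ω)))) := by
      apply hle L P
      intro ω ω' _ _ he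
      simp only [hZ, Prod.mk.injEq] at he ⊢
      tauto
    unfold Law.C
    linarith
  have h3 : P.C (fun ω => c ω i) Z ≤ 0 := by
    unfold Law.C
    have h : P.H (fun ω => (c ω i, Z ω)) ≤ P.H Z := by
      apply hle L P
      intro ω ω' _ _ he
      simp only [hZ, Prod.mk.injEq] at he ⊢
      tauto
    linarith
  have h4 : P.C c Z ≤ ((R : ℝ) - 1) * (9 * l / 4 + 1279 * e - u) := by
    refine le_trans (csub L P c Z) ?_
    rw [← Finset.add_sum_erase _ _ (Finset.mem_univ i)]
    have h5 : ∑ j ∈ Finset.univ.erase i, P.C (fun ω => c ω j) Z ≤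
        ∑ j ∈ Finset.univ.erase i, (9 * l / 4 + 1279 * e - u) :=
      Finset.sum_le_sum (fun j hj => h2 j (Finset.ne_of_mem_erase hj))
    rw [Finset.sum_const, Finset.card_erase_of_mem (Finset.mem_univ i), Finset.card_univ,
      Fintype.card_fin, nsmul_eq_mul, Nat.cast_sub (by omega : 1 ≤ R)] at h5
    push_cast at h5
    linarith
  -- (6)
  have h6 : V + R * κ ≤ P.H (fun ω => (F.b (c ω i) (x ω), (c ω, Z ω))) := by
    rw [← hm.hR]
    apply hle L P
    intro ω ω' h0 h0' he
    simp only [hZ, Prod.mk.injEq] at he ⊢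
    obtain ⟨e1, e2, e3, e4, e5, e6⟩ := he
    have r := hrel ω h0 i
    have r' := hrel ω' h0' i
    have x1 : x ω = x ω' := by
      rw [← F.sub (c ω i) (x ω) r.2.2.1, ← F.sub (c ω' i) (x ω') r'.2.2.1, e1, e5]
    have y1 : y ω = y ω' := by
      rw [← F.sub (c ω i) (y ω) r.2.2.2.1, ← F.sub (c ω' i) (y ω') r'.2.2.2.1, e6,
        r.2.2.2.2.2.2.1, r'.2.2.2.2.2.2.1, e1]
    exact ⟨⟨x1, y1, e4⟩, e2⟩
  -- (7)
  have h7 : V + κ ≤ P.H (fun ω => (F.b (c ω i) (x ω), Z ω)) := by
    rw [← hm.h1 i]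
    apply hle L P
    intro ω ω' h0 h0' he
    simp only [hZ, Prod.mk.injEq] at he ⊢
    obtain ⟨e1, e3, e4, e5, e6⟩ := he
    have r := hrel ω h0 i
    have r' := hrel ω' h0' i
    have x1 : x ω = x ω' := by
      rw [← F.sub (c ω i) (x ω) r.2.2.1, ← F.sub (c ω' i) (x ω') r'.2.2.1, e1, e5]
    have y1 : y ω = y ω' := by
      rw [← F.sub (c ω i) (y ω) r.2.2.2.1, ← F.sub (c ω' i) (y ω') r'.2.2.2.1, e6,
        r.2.2.2.2.2.2.1, r'.2.2.2.2.2.2.1, e1]
    exact ⟨⟨x1, y1, e4⟩, e3⟩
  have h8 : P.C (fun ω => F.b (c ω i) (x ω)) Z ≤ l / 2 + e := by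
    have := clab L hm.base P false x (fun ω => c ω i) Z (fun z => z.1) (fun ω => rfl)
      (fun ω h0 => (hrel ω h0 i).2.2.1)
    simpa only [Fam.lab, Bool.false_eq_true, if_false] using this
  have h9 : V + κ - l / 2 - e ≤ u := by
    unfold Law.C at h8
    linarith
  have h10 : P.C (fun ω => F.b (c ω i) (x ω)) (fun ω => (c ω, Z ω)) ≤
      P.C (fun ω => F.b (c ω i) (x ω)) (fun ω => (F.a (c ω i) (x ω), c ω)) := by
    apply cmono L P
    intro ω ω' _ _ he
    simp only [hZ, Prod.mk.injEq] at he ⊢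
    tauto
  refine le_trans ?_ h10
  have h11 : P.H (fun ω => (c ω, Z ω)) = u + P.C c Z := by
    unfold Law.C
    ring
  have h12 : P.C (fun ω => F.b (c ω i) (x ω)) (fun ω => (c ω, Z ω)) =
      P.H (fun ω => (F.b (c ω i) (x ω), (c ω, Z ω))) - P.H (fun ω => (c ω, Z ω)) := rfl
  have hbig := hm.big
  have hR2 : (2 : ℝ) ≤ R := by exact_mod_cast hR
  have h13 : ((R : ℝ) - 2) * (V + κ - l / 2 - e) ≤ ((R : ℝ) - 2) * u :=
    mul_le_mul_of_nonneg_left h9 (by linarith)
  have h14 : ((R : ℝ) - 1) * (11 * l / 4 - e) ≤ ((R : ℝ) - 1) * (V + 2 * κ) :=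
    mul_le_mul_of_nonneg_left hbig (by linarith)
  have h15 : 0 ≤ (R : ℝ) * e := by positivity
  rw [h12, h11]
  nlinarith

end Pool.Agent.TF.H80
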