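import Pool.Agent.Helper80_TF.Kit

/-! Squad TF (MP_589914_co), row MTH. -/

set_option autoImplicit false

namespace Pool.Agent.TF.H80

theorem Base.mono {G : Type} [AddCommGroup G] [Fintype G] [DecidableEq G] {n : ℕ}
    {F : Fam G n} {l e e' : ℝ} (hb : Base F l e) (h : e ≤ e') : Base F l e' where
  e0 := le_trans hb.e0 h
  hN := hb.hN
  hn := by linarith [hb.hn]
  hlab := fun σ k => by linarith [hb.hlab σ k]
  hW := hb.hW

/-- a class has entropy at most `l/2 + e` -/
theorem hcls (L : Lib) {G : Type} [AddCommGroup G] [Fintype G] [DecidableEq G] {n : ℕ}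
    {F : Fam G n} {l e : ℝ} (hb : Base F l e) {Ω : Type} [Fintype Ω] (P : Law Ω)
    (k : Ω → Fin n) : P.H k ≤ l / 2 + e := by
  have h := hlog L P k Finset.univ (fun ω _ => Finset.mem_univ _)
  rw [Finset.card_univ, Fintype.card_fin] at h
  linarith [hb.hn]

/-- MTH -/
theorem mth (L : Lib) (hM : MovStmt) (hU : UppStmt) : MthStmt := by
  intro G _ _ _ n F l e V κ R Ω _ P x y h c hR hm
  have he0 := hm.base.e0
  have hrel := hm.rel
  have hR0 : (0 : ℝ) ≤ R := Nat.cast_nonneg R
  refine ⟨Base.mono hm.base (by linarith), by positivity, fun ω h0 i => (hrel ω h0 i).2.2.1, ?_,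
    fun i => hM G n F l e V κ R Ω P x y h c hR hm i⟩
  intro i j hij
  have h1 := (hU G n F l e Ω P x y (fun ω => c ω i) (fun ω => c ω j) hm.base
    (fun ω h0 => ⟨(hrel ω h0 i).2.2.1, (hrel ω h0 j).2.2.1, (hrel ω h0 i).2.2.2.1,
      (hrel ω h0 j).2.2.2.1, (hrel ω h0 i).2.2.2.2.2.2.1, (hrel ω h0 j).2.2.2.2.2.2.1⟩)).1
  have h2 := hm.h2 i j hij
  have h3 : P.H (fun ω => ((x ω, y ω, h ω), (c ω i, c ω j))) ≤
      P.H (fun ω => (((x ω, y ω), (c ω i, c ω j)), h ω)) := by
    apply hle L P
    intro ω ω' _ _ he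
    simp only [Prod.mk.injEq] at he ⊢
    tauto
  have h4 : P.H (fun ω => (((x ω, y ω), (c ω i, c ω j)), h ω)) ≤
      P.H (fun ω => ((x ω, y ω), (c ω i, c ω j))) + P.H h := by
    have h5 := L.sub Ω _ _ Unit P (fun ω => ((x ω, y ω), (c ω i, c ω j))) h (fun _ => ())
    have h6 : P.H (fun ω => ((((x ω, y ω), (c ω i, c ω j)) : (G × G) × (Fin n × Fin n)), ())) =
        P.H (fun ω => ((x ω, y ω), (c ω i, c ω j))) := by
      apply heq L P
      · intro ω ω' _ _ he
        simp only [Prod.mk.injEq] at he ⊢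
        tauto
      · intro ω ω' _ _ he
        simp only [Prod.mk.injEq] at he ⊢
        tauto
    have h7 : P.H (fun ω => (h ω, ())) = P.H h := by
      apply heq L P
      · intro ω ω' _ _ he
        simp only [Prod.mk.injEq] at he ⊢
        tauto
      · intro ω ω' _ _ he
        simp only [Prod.mk.injEq] at he ⊢
        tauto
    have h8 : P.H (fun ω => (((x ω, y ω), (c ω i, c ω j)), (h ω, ()))) =
        P.H (fun ω => (((x ω, y ω), (c ω i, c ω j)), h ω)) := by
      apply heq L P
      · intro ω ω' _ _ he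
        simp only [Prod.mk.injEq] at he ⊢
        tauto
      · intro ω ω' _ _ he
        simp only [Prod.mk.injEq] at he ⊢
        tauto
    have h9 : 0 ≤ P.H (fun _ => ()) := L.mon.2 Ω Unit P _
    unfold Law.C at h5
    rw [h6, h7, h8] at h5
    linarith
  have h5 := hcls L hm.base P h
  have hb := hm.big
  rw [h2] at h3
  linarith

end Pool.Agent.TF.H80
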