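import Pool.Agent.Helper80_TF.Kit

/-! Squad TF (MP_589914_co), row PLB. -/

set_option autoImplicit false

namespace Pool.Agent.TF.H80

variable {G : Type} [AddCommGroup G] [Fintype G] [DecidableEq G] {n : ℕ}

/-- `x` is nearly uniform given one label `a` of one class and one label `b` of another -/
theorem two_labels (L : Lib) (hP : Pr2Stmt) (F : Fam G n) (l e f : ℝ) {R : ℕ}
    {Ω : Type} [Fintype Ω] (P : Law Ω) (x : Ω → G) (c : Ω → Fin R → Fin n)
    (hT : Thin F l e f R P x c) (i j : Fin R) (hij : i ≠ j) :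
    l / 4 - f - 20 * e ≤ P.C x (fun ω => ((F.a (c ω i) (x ω), F.b (c ω j) (x ω)), c ω)) := by
  have hpr := hP G n F l e Ω P x (fun ω => c ω i) (fun ω => c ω j) hT.base
    (fun ω h0 => ⟨hT.supp ω h0 i, hT.supp ω h0 j⟩) (hT.pair i j hij)
  have hjk := hpr.jk true false
  simp only [Fam.lab] at hjk
  -- C b_j (a_i, c) ≤ l/4 + 20 e
  have h1 : P.C (fun ω => F.b (c ω j) (x ω)) (fun ω => (F.a (c ω i) (x ω), c ω))
      ≤ l / 4 + 20 * e := by
    refine le_trans (cmono L P (fun ω => F.b (c ω j) (x ω)) ?_) hjk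
    intro ω ω' _ _ he
    simp only [Prod.mk.injEq] at he ⊢
    obtain ⟨h2, h3⟩ := he
    exact ⟨by simpa using h2, by rw [h3], by rw [h3]⟩
  have h2 := hT.move i
  -- C x (a_i, c) = C b_i (a_i, c)
  have h3 : P.C (fun ω => F.b (c ω i) (x ω)) (fun ω => (F.a (c ω i) (x ω), c ω))
      ≤ P.C x (fun ω => (F.a (c ω i) (x ω), c ω)) := by
    apply cle L P
    intro ω ω' _ _ he
    simp only [Prod.mk.injEq] at he
    obtain ⟨h4, h5, h6⟩ := he
    change F.b (c ω i) (x ω) = F.b (c ω' i) (x ω')
    rw [h4, h6]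
  -- C x (a_i,c) = C (x, b_j) (a_i, c) = C b_j (a_i,c) + C x (b_j, (a_i, c))
  have h4 := cadd L P x (fun ω => F.b (c ω j) (x ω)) (fun ω => (F.a (c ω i) (x ω), c ω))
  have h5 : P.C x (fun ω => (F.a (c ω i) (x ω), c ω)) ≤
      P.C (fun ω => (x ω, F.b (c ω j) (x ω))) (fun ω => (F.a (c ω i) (x ω), c ω)) := by
    apply cle L P
    intro ω ω' _ _ he
    simp only [Prod.mk.injEq] at he
    exact he.1.1
  have h6 : P.C x (fun ω => (F.b (c ω j) (x ω), (F.a (c ω i) (x ω), c ω))) =
      P.C x (fun ω => ((F.a (c ω i) (x ω), F.b (c ω j) (x ω)), c ω)) := by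
    apply ceq L P
    all_goals
      intro ω ω' _ _ he
      simp only [Prod.mk.injEq] at he ⊢
      tauto
  linarith

/-- the partial assignment `i ↦ σ`, `j ↦ τ` -/
def pat {R : ℕ} (i j : Fin R) (σ τ : Bool) : Fin R → Option Bool :=
  fun t => if t = i then some σ else if t = j then some τ else none

theorem labs_pat (L : Lib) (F : Fam G n) {R : ℕ} {Ω : Type} [Fintype Ω] (P : Law Ω) (x : Ω → G)
    (c : Ω → Fin R → Fin n) (i j : Fin R) (hij : i ≠ j) (σ τ : Bool) :
    P.C x (fun ω => (F.labs (pat i j σ τ) (c ω) (x ω), c ω)) =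
      P.C x (fun ω => ((F.lab σ (c ω i) (x ω), F.lab τ (c ω j) (x ω)), c ω)) := by
  apply ceq L P
  · intro ω ω' _ _ he
    simp only [Prod.mk.injEq] at he ⊢
    obtain ⟨h1, h2, h3⟩ := he
    refine ⟨h1, ⟨?_, ?_⟩, h3⟩
    · rw [h1, h3]
    · rw [h1, h3]
  · intro ω ω' _ _ he
    simp only [Prod.mk.injEq] at he ⊢
    obtain ⟨h1, ⟨h2, h2'⟩, h3⟩ := he
    exact ⟨h1, by rw [h1, h3], h3⟩
  · intro ω ω' _ _ he
    simp only [Prod.mk.injEq] at he ⊢
    obtain ⟨h1, h3⟩ := he
    have h4 := congrFun h1 i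
    have h5 := congrFun h1 j
    simp only [Fam.labs, pat, if_true, if_neg hij.symm, Option.map_some, Option.some.injEq] at h4 h5
    exact ⟨⟨h4, h5⟩, h3⟩
  · intro ω ω' _ _ he
    simp only [Prod.mk.injEq] at he ⊢
    obtain ⟨⟨h2, h2'⟩, h3⟩ := he
    refine ⟨?_, h3⟩
    funext t
    simp only [Fam.labs, pat]
    by_cases hi : t = i
    · subst hi
      simp [h2]
    · by_cases hj : t = j
      · subst hj
        simp [hi, h2']
      · simp [hi, hj]

theorem pat_iff {R : ℕ} (i j : Fin R) (hij : i ≠ j) (σ τ : Bool) (ε : Fin R → Bool) :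
    (∀ t ρ, pat i j σ τ t = some ρ → ε t = ρ) ↔ (ε i = σ ∧ ε j = τ) := by
  constructor
  · intro h
    exact ⟨h i σ (by simp [pat]), h j τ (by simp [pat, hij.symm])⟩
  · rintro ⟨h1, h2⟩ t ρ h
    simp only [pat] at h
    by_cases hi : t = i
    · subst hi
      simp only [if_true, Option.some.injEq] at h
      rw [h1, h]
    · by_cases hj : t = j
      · subst hj
        simp only [if_neg hi, if_true, Option.some.injEq] at h
        rw [h2, h]
      · simp [hi, hj] at h

/-- PLB -/
theorem plb (L : Lib) (hM : MulStmt) (hB : BooStmt) (hF : PlfStmt) (hP : Pr2Stmt) : PlbStmt := by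
  intro G _ _ _ n F l e f Ω _ P x c hT
  have he0 := hT.base.e0
  have hf0 := hT.f0
  set μ : (Fin 5 → Bool) → ℝ := fun ε =>
    P.C x (fun ω => (F.labs (fun i => some (ε i)) (c ω) (x ω), c ω)) with hμ
  set η : ℝ := 4000 * (5 : ℕ) * (f + e) with hη
  have hη0 : 0 ≤ η := by rw [hη]; positivity
  have hboo := hB G n F η 5 Ω P x c hη0 (fun ω h0 i => hT.supp ω h0 i)
    (fun τ j hj => hM G n F l e f 5 Ω P x c hT τ j hj)
  have hnn : ∀ ε, 0 ≤ μ ε := fun ε => cnn L P _ _
  -- the total
  have htot : (∑ ε, μ ε) ≤ l := by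
    have h1 := (hboo (fun _ => none)).1
    have h2 : P.C x (fun ω => (F.labs (fun _ : Fin 5 => none) (c ω) (x ω), c ω)) ≤ l := by
      apply clog L P x _ (fun _ => Finset.univ)
      · intro ω _
        exact Finset.mem_univ _
      · intro ω _
        rw [Finset.card_univ]
        exact le_of_eq hT.base.hN
    refine le_trans (le_of_eq ?_) (le_trans h1 h2)
    apply Finset.sum_congr rfl
    intro ε _
    rw [if_pos]
    intro i σ h
    simp at h
  -- the pairs
  have hpair : ∀ i j : Fin 5, i ≠ j →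
      l / 2 - 2 * f - 40 * e - 64 * η ≤ ∑ ε, if ε i ≠ ε j then μ ε else 0 := by
    intro i j hij
    have h1 : ∀ i j : Fin 5, i ≠ j → l / 4 - f - 20 * e - 32 * η ≤
        ∑ ε, if (ε i = true ∧ ε j = false) then μ ε else 0 := by
      intro i j hij
      have h2 := (hboo (pat i j true false)).2
      rw [labs_pat L F P x c i j hij true false] at h2
      have h3 := two_labels L hP F l e f P x c hT i j hij
      simp only [Fam.lab, if_true, Bool.false_eq_true, if_false] at h2
      have h4 : (∑ ε : Fin 5 → Bool, if (∀ t ρ, pat i j true false t = some ρ → ε t = ρ) then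
          μ ε else 0) = ∑ ε, if (ε i = true ∧ ε j = false) then μ ε else 0 := by
        apply Finset.sum_congr rfl
        intro ε _
        simp only [pat_iff i j hij true false ε]
      have h5 : P.C x (fun ω => ((F.a (c ω i) (x ω), F.b (c ω j) (x ω)), c ω)) ≤
          (∑ ε : Fin 5 → Bool, if (∀ t ρ, pat i j true false t = some ρ → ε t = ρ) then
          μ ε else 0) + 2 ^ 5 * η := h2
      rw [h4] at h5
      linarith
    have h2 := h1 i j hij
    have h3 := h1 j i hij.symm
    have h4 : (∑ ε, if ε i ≠ ε j then μ ε else 0) =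
        (∑ ε, if (ε i = true ∧ ε j = false) then μ ε else 0) +
        (∑ ε, if (ε j = true ∧ ε i = false) then μ ε else 0) := by
      rw [← Finset.sum_add_distrib]
      apply Finset.sum_congr rfl
      intro ε _
      cases hi : ε i <;> cases hj : ε j <;> simp
    rw [h4]
    linarith
  have hfin := hF μ l (l / 2 - 2 * f - 40 * e - 64 * η) hnn htot hpair
  -- identify the two corner masses
  have hc : ∀ σ : Bool, P.C x (fun ω => ((fun i => F.lab σ (c ω i) (x ω)), c ω)) =
      μ (fun _ => σ) := by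
    intro σ
    apply ceq L P
    · intro ω ω' _ _ he
      simp only [Prod.mk.injEq] at he ⊢
      obtain ⟨h1, h2, h3⟩ := he
      exact ⟨h1, by rw [h1, h3], h3⟩
    · intro ω ω' _ _ he
      simp only [Prod.mk.injEq] at he ⊢
      obtain ⟨h1, h2, h3⟩ := he
      exact ⟨h1, by rw [h1, h3], h3⟩
    · intro ω ω' _ _ he
      simp only [Prod.mk.injEq] at he ⊢
      obtain ⟨h1, h3⟩ := he
      refine ⟨?_, h3⟩
      funext t
      have := congrFun h1 t
      simp only [Fam.labs, Option.map_some, Option.some.injEq]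
      exact this
    · intro ω ω' _ _ he
      simp only [Prod.mk.injEq] at he ⊢
      obtain ⟨h1, h3⟩ := he
      refine ⟨?_, h3⟩
      funext t
      have := congrFun h1 t
      simp only [Fam.labs, Option.map_some, Option.some.injEq] at this
      exact this
  have hct := hc true
  have hcf := hc false
  simp only [Fam.lab, if_true, Bool.false_eq_true, if_false] at hct hcf
  rw [hct, hcf]
  have hη' : η = 20000 * (f + e) := by rw [hη]; push_cast; ring
  rw [hη'] at hfin
  refine le_trans hfin ?_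
  norm_num
  nlinarith

end Pool.Agent.TF.H80
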