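import Pool.Agent.TF.Stmts

/-! Squad TF (MP_589914_co): a small kit of entropy inequalities derived from the library. -/

set_option autoImplicit false

namespace Pool.Agent.TF.H80

variable {Ω S T U V : Type} [Fintype Ω]

theorem hle (L : Lib) (P : Law Ω) {X : Ω → S} {Y : Ω → T} (h : P.Det X Y) : P.H Y ≤ P.H X :=
  L.mon.1 Ω S T P X Y h

theorem heq (L : Lib) (P : Law Ω) {X : Ω → S} {Y : Ω → T} (h : P.Det X Y) (h' : P.Det Y X) :
    P.H X = P.H Y := le_antisymm (hle L P h') (hle L P h)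

theorem cnn (L : Lib) (P : Law Ω) (X : Ω → S) (Y : Ω → T) : 0 ≤ P.C X Y := by
  have h : P.H Y ≤ P.H (fun ω => (X ω, Y ω)) :=
    hle L P (fun ω ω' _ _ h => (Prod.ext_iff.1 h).2)
  unfold Law.C
  linarith

/-- conditioning on more decreases -/
theorem cmono (L : Lib) (P : Law Ω) (X : Ω → S) {Y' : Ω → U} {Y : Ω → T} (h : P.Det Y' Y) :
    P.C X Y' ≤ P.C X Y := by
  have h1 := L.sub Ω S U T P X Y' Y
  have h2 : P.H (fun ω => (X ω, (Y' ω, Y ω))) = P.H (fun ω => (X ω, Y' ω)) := by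
    apply heq L P
    · intro ω ω' _ _ he
      have h3 := Prod.ext_iff.1 he
      exact Prod.ext h3.1 (Prod.ext_iff.1 h3.2).1
    · intro ω ω' h0 h0' he
      have h3 := Prod.ext_iff.1 he
      exact Prod.ext h3.1 (Prod.ext h3.2 (h ω ω' h0 h0' h3.2))
  have h4 : P.H (fun ω => (Y' ω, Y ω)) = P.H Y' := by
    apply heq L P
    · intro ω ω' _ _ he
      exact (Prod.ext_iff.1 he).1
    · intro ω ω' h0 h0' he
      exact Prod.ext he (h ω ω' h0 h0' he)
  unfold Law.C at h1 ⊢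
  linarith

/-- chain rule -/
theorem cadd (L : Lib) (P : Law Ω) (X : Ω → S) (Y : Ω → T) (Z : Ω → U) :
    P.C (fun ω => (X ω, Y ω)) Z = P.C Y Z + P.C X (fun ω => (Y ω, Z ω)) := by
  have h2 : P.H (fun ω => ((X ω, Y ω), Z ω)) = P.H (fun ω => (X ω, (Y ω, Z ω))) := by
    apply heq L P
    · intro ω ω' _ _ he
      simp only [Prod.mk.injEq] at he ⊢
      tauto
    · intro ω ω' _ _ he
      simp only [Prod.mk.injEq] at he ⊢
      tauto
  unfold Law.C
  linarith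

/-- equality of conditional entropies from determinism of the pairs -/
theorem ceq (L : Lib) (P : Law Ω) {X : Ω → S} {X' : Ω → T} {Y : Ω → U} {Y' : Ω → V}
    (h1 : P.Det (fun ω => (X ω, Y ω)) (fun ω => (X' ω, Y' ω)))
    (h2 : P.Det (fun ω => (X' ω, Y' ω)) (fun ω => (X ω, Y ω)))
    (h3 : P.Det Y Y') (h4 : P.Det Y' Y) : P.C X Y = P.C X' Y' := by
  unfold Law.C
  rw [heq L P h1 h2, heq L P h3 h4]

theorem cle (L : Lib) (P : Law Ω) {X : Ω → S} {X' : Ω → T} {Y : Ω → U}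
    (h1 : P.Det (fun ω => (X ω, Y ω)) (fun ω => X' ω)) : P.C X' Y ≤ P.C X Y := by
  have h : P.H (fun ω => (X' ω, Y ω)) ≤ P.H (fun ω => (X ω, Y ω)) :=
    hle L P (fun ω ω' h0 h0' h => Prod.ext (h1 ω ω' h0 h0' h) (Prod.ext_iff.1 h).2)
  unfold Law.C
  linarith

theorem Ezero (P : Law Ω) : P.E (fun _ => (0 : ℝ)) = 0 := by simp [Law.E]

theorem Econst (P : Law Ω) (c : ℝ) : P.E (fun _ => c) = c := by
  simp [Law.E, ← Finset.sum_mul, P.one]

theorem Emono (P : Law Ω) (f g : Ω → ℝ) (h : ∀ ω, P.p ω ≠ 0 → f ω ≤ g ω) : P.E f ≤ P.E g := by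
  unfold Law.E
  apply Finset.sum_le_sum
  intro ω _
  by_cases h0 : P.p ω = 0
  · simp [h0]
  · exact mul_le_mul_of_nonneg_left (h ω h0) (P.nn ω)

/-- entropy is at most the logarithm of the number of values -/
theorem hlog (L : Lib) (P : Law Ω) (X : Ω → S) (A : Finset S) (h : ∀ ω, P.p ω ≠ 0 → X ω ∈ A) :
    P.H X ≤ Real.log A.card := by
  have h1 := L.gib Ω S P X A (fun _ => (1 : ℝ)) (fun _ _ => zero_le_one)
    (fun ω h0 => ⟨h ω h0, one_pos⟩)
  simp only [Real.log_one, Ezero, add_zero, Finset.sum_const, nsmul_eq_mul, mul_one] at h1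
  exact h1

/-- conditional version, with a uniform bound -/
theorem clog (L : Lib) (P : Law Ω) (X : Ω → S) (Y : Ω → U) (A : U → Finset S) (B : ℝ)
    (h : ∀ ω, P.p ω ≠ 0 → X ω ∈ A (Y ω)) (hB : ∀ ω, P.p ω ≠ 0 → Real.log (A (Y ω)).card ≤ B) :
    P.C X Y ≤ B := by
  have h1 := L.gic Ω S U P X Y A (fun _ _ => (1 : ℝ)) (fun _ _ _ => zero_le_one)
    (fun ω h0 => ⟨h ω h0, one_pos⟩)
  simp only [Real.log_one, Ezero, add_zero, Finset.sum_const, nsmul_eq_mul, mul_one] at h1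
  have h2 : P.E (fun ω => Real.log (A (Y ω)).card) ≤ P.E (fun _ => B) := Emono P _ _ hB
  rw [Econst] at h2
  linarith

end Pool.Agent.TF.H80
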